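import Pool.Agent.Work.MP_d4a4cd_h15.Interface

/-!
# LT1: telescoping
-/

set_option autoImplicit false

namespace Pool.Agent.LuckyTwo

namespace LT1

theorem op_wsum (φ : ℕ → ℤ) : ∀ xs : List ℕ, Op xs (fun l => φ (wsum l)) = (wsum xs : ℤ) * φ (wsum xs + 2)
  | [] => by simp [Op, wsum]
  | x :: xs => by
    have h := op_wsum (fun m => φ (x + 1 + m)) xs
    simp only [Op, wsum] at h ⊢
    rw [h]
    have e1 : x + 2 + 1 + wsum xs = x + 1 + wsum xs + 2 := by ring
    have e2 : x + 1 + (wsum xs + 2) = x + 1 + wsum xs + 2 := by ring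
    rw [e1, e2]
    push_cast
    ring

theorem op_add : ∀ (xs : List ℕ) (F G : List ℕ → ℤ), Op xs (fun l => F l + G l) = Op xs F + Op xs G
  | [], F, G => by simp [Op]
  | x :: xs, F, G => by
    simp only [Op]
    rw [op_add xs (fun l => F (x :: l)) (fun l => G (x :: l))]
    ring

theorem op_neg : ∀ (xs : List ℕ) (F : List ℕ → ℤ), Op xs (fun l => - F l) = - Op xs F
  | [], F => by simp [Op]
  | x :: xs, F => by
    simp only [Op]
    rw [op_neg xs (fun l => F (x :: l))]
    ring

theorem c_add : ∀ (xs : List ℕ) (F G : List ℕ → ℤ), C xs (fun l => F l + G l) = C xs F + C xs G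
  | [], F, G => by simp [C]
  | x :: xs, F, G => by
    simp only [C]
    rw [c_add xs (fun l => F (x :: l)) (fun l => G (x :: l))]
    ring

theorem c_smul (c : ℤ) : ∀ (xs : List ℕ) (F : List ℕ → ℤ), C xs (fun l => c * F l) = c * C xs F
  | [], F => by simp [C]
  | x :: xs, F => by
    simp only [C]
    rw [c_smul c xs (fun l => F (x :: l))]
    ring

theorem c_congr : ∀ (xs : List ℕ) (F F1 : List ℕ → ℤ), (∀ x l, F (x :: l) = F1 (x :: l)) → C xs F = C xs F1
  | [], F, F1, _ => by simp [C]
  | x :: xs, F, F1, h => by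
    simp only [C]
    rw [h, c_congr xs (fun l => F (x :: l)) (fun l => F1 (x :: l)) (fun y l => h x (y :: l))]

theorem c_zero : ∀ (xs : List ℕ), C xs (fun _ => 0) = 0
  | [] => by simp [C]
  | x :: xs => by
    simp only [C]
    rw [c_zero xs]
    ring

theorem op_c : ∀ (xs : List ℕ) (F : List ℕ → ℤ), Op xs (fun l => C l F) = C xs (O F)
  | [], F => by simp [Op, C]
  | x :: xs, F => by
    have h1 := op_c xs (fun l => F (x :: l))
    have h2 := op_wsum (fun m => F [x + m]) xs
    have h3 : Op xs (fun l => C (x :: l) F) = Op xs (fun l => F [x + wsum l]) + Op xs (fun l => C l (fun l' => F (x :: l'))) :=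
      op_add xs _ _
    have h4 : C xs (fun l => O F (x :: l)) = ((x : ℤ) + 1) * C xs (fun l => F ((x + 2) :: l)) +
        C xs (O (fun l => F (x :: l))) := by
      have e : (fun l => O F (x :: l)) = fun l => ((x : ℤ) + 1) * F ((x + 2) :: l) + O (fun l => F (x :: l)) l := rfl
      rw [e, c_add xs (fun l => ((x : ℤ) + 1) * F ((x + 2) :: l)) (O (fun l => F (x :: l))), c_smul]
    have h5 : O F [x + wsum xs] = (((x + wsum xs : ℕ) : ℤ) + 1) * F [x + wsum xs + 2] := by
      change ((((x + wsum xs : ℕ) : ℤ) + 1) * F [x + wsum xs + 2]) + 0 = _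
      ring
    change ((x : ℤ) + 1) * (F [x + 2 + wsum xs] + C xs (fun l => F ((x + 2) :: l))) + Op xs (fun l => C (x :: l) F) =
      O F [x + wsum xs] + C xs (fun l => O F (x :: l))
    rw [h3, h2, h4, h5, ← h1]
    have e1 : x + 2 + wsum xs = x + wsum xs + 2 := by ring
    have e2 : x + (wsum xs + 2) = x + wsum xs + 2 := by ring
    rw [e1, e2]
    push_cast
    ring

end LT1

open LT1

theorem stmt_LT1 : Stmt_LT1 := by
  intro N
  induction N with
  | zero =>
    intro r l
    change (1 : ℤ) = ((r + wsum l).ascFactorial 0 : ℕ) - C l (fun _ => 0)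
    rw [c_zero, Nat.ascFactorial_zero]
    norm_num
  | succ N ih =>
    -- positive front
    have hpos : ∀ (r : ℕ) (l : List ℕ), Z (N + 1) (r + 1) l = ((r + 1 + wsum l).ascFactorial (N + 1) : ℕ) -
        C l (G (N + 1) (r + 1)) := by
      intro r l
      have e1 : Z (N + 1) (r + 1) l = ((r : ℤ) + 1) * Z N (r + 2) l + Op l (Z N r) := by
        cases l <;> rfl
      have e2 : C l (G (N + 1) (r + 1)) = ((r : ℤ) + 1) * C l (G N (r + 2)) + C l (O (G N r)) := by
        have e : G (N + 1) (r + 1) = fun l => ((r : ℤ) + 1) * G N (r + 2) l + O (G N r) l := by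
          funext l
          rcases l with _ | ⟨x, _ | ⟨y, l⟩⟩ <;> rfl
        rw [e, c_add l (fun l => ((r : ℤ) + 1) * G N (r + 2) l) (O (G N r)), c_smul]
      have e3 : Op l (Z N r) = (wsum l : ℤ) * ((r + (wsum l + 2)).ascFactorial N : ℕ) - C l (O (G N r)) := by
        have e : Z N r = fun l => (((r + wsum l).ascFactorial N : ℕ) : ℤ) + - C l (G N r) := by
          funext l
          rw [ih r l]
          ring
        rw [e, op_add l (fun l => (((r + wsum l).ascFactorial N : ℕ) : ℤ)) (fun l => - C l (G N r)), op_neg, op_c,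
          op_wsum (fun m => (((r + m).ascFactorial N : ℕ) : ℤ))]
        ring
      have e4 : (r + 1 + wsum l).ascFactorial (N + 1) = (r + 1 + wsum l) * (r + 2 + wsum l).ascFactorial N := by
        rw [Nat.ascFactorial_succ, ← Nat.succ_ascFactorial, show (r + 1 + wsum l).succ = r + 2 + wsum l by omega]
      have e5 : r + (wsum l + 2) = r + 2 + wsum l := by ring
      rw [e1, e2, e3, ih (r + 2) l, e4, e5]
      push_cast
      ring
    intro r l
    rcases r with _ | r
    · induction l with
      | nil =>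
        change (0 : ℤ) = ((0 + 0).ascFactorial (N + 1) : ℕ) - 0
        rw [Nat.zero_add, Nat.zero_ascFactorial]
        norm_num
      | cons x xs ihl =>
        have e1 : Z (N + 1) 0 (x :: xs) = Z (N + 1) x xs := rfl
        have e2 : Z (N + 1) x xs = ((x + wsum xs).ascFactorial (N + 1) : ℕ) - C xs (G (N + 1) x) := by
          rcases x with _ | x
          · exact ihl
          · exact hpos x xs
        have e3 : C (x :: xs) (G (N + 1) 0) = ((N : ℤ) + 1) * ((x + wsum xs + 1).ascFactorial N : ℕ) +
            C xs (G (N + 1) x) := by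
          change G (N + 1) 0 [x + wsum xs] + C xs (fun l => G (N + 1) 0 (x :: l)) = _
          rw [c_congr xs (fun l => G (N + 1) 0 (x :: l)) (G (N + 1) x) (fun y l => rfl)]
          rfl
        have e4 : (x + 1 + wsum xs).ascFactorial (N + 1) = (x + wsum xs + 1 + N) * (x + wsum xs + 1).ascFactorial N := by
          rw [show x + 1 + wsum xs = x + wsum xs + 1 by ring, Nat.ascFactorial_succ]
        have e5 : (x + wsum xs).ascFactorial (N + 1) = (x + wsum xs) * (x + wsum xs + 1).ascFactorial N := by
          rw [Nat.ascFactorial_succ, ← Nat.succ_ascFactorial]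
        rw [e1, e2, e3]
        have e6 : wsum (x :: xs) = x + 1 + wsum xs := rfl
        rw [e6, Nat.zero_add, e4, e5]
        push_cast
        ring
    · exact hpos r l

end Pool.Agent.LuckyTwo
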