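import Pool.Agent.Work.MP_d4a4cd_h15.Interface

set_option autoImplicit false

namespace Pool.Agent.LuckyTwo

namespace LT3

open Finset

theorem pascal (f : ℕ → ℕ → ℕ) (n : ℕ) :
    ∑ i ∈ range (n + 2), (n + 1).choose i * f i (n + 1 - i) =
      ∑ i ∈ range (n + 1), n.choose i * (f (i + 1) (n - i) + f i (n - i + 1)) := by
  have h := Finset.sum_antidiagonal_choose_succ_mul (R := ℕ) f n
  simp only [Nat.cast_id] at h
  rw [Finset.Nat.sum_antidiagonal_eq_sum_range_succ (fun i j => (n + 1).choose i * f i j) (n + 1)] at h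
  rw [Finset.Nat.sum_antidiagonal_eq_sum_range_succ (fun i j => n.choose i * f i (j + 1)) n] at h
  rw [Finset.Nat.sum_antidiagonal_eq_sum_range_succ (fun i j => n.choose j * f (i + 1) j) n] at h
  rw [h, ← Finset.sum_add_distrib]
  apply Finset.sum_congr rfl
  intro i hi
  have hi' : i ≤ n := Nat.lt_succ_iff.1 (mem_range.1 hi)
  rw [Nat.choose_symm hi']
  ring

theorem vand (a b x : ℕ) :
    ∑ i ∈ range (x + 1), x.choose i * (poch a i * poch b (x - i)) = poch (a + b) x := by
  induction x with
  | zero => simp [poch]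
  | succ x ih =>
    rw [pascal (fun i j => poch a i * poch b j) x]
    have : ∀ i ∈ range (x + 1), x.choose i * (poch a (i + 1) * poch b (x - i) + poch a i * poch b (x - i + 1)) =
        (a + b + 2 * x) * (x.choose i * (poch a i * poch b (x - i))) := by
      intro i hi
      have hi' : i ≤ x := Nat.lt_succ_iff.1 (mem_range.1 hi)
      obtain ⟨j, rfl⟩ := Nat.exists_eq_add_of_le hi'
      simp only [poch, Nat.add_sub_cancel_left]
      ring
    rw [Finset.sum_congr rfl this, ← Finset.mul_sum, ih, poch]

end LT3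

theorem p_LT3 : Stmt_LT3 := by
  intro g x
  rw [LT3.vand 1 g x, Nat.add_comm 1 g]

end Pool.Agent.LuckyTwo
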