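import Pool.Agent.Work.MP_d4a4cd_h15.Interface

/-!
# Block LT4: iterated insertions, first gap separated
-/

set_option autoImplicit false

namespace Pool.Agent.LuckyTwo

namespace BLT4

theorem Op_lin (l : List ℕ) : ∀ (a : ℤ) (F F1 : List ℕ → ℤ),
    Op l (fun l => a * F l + F1 l) = a * Op l F + Op l F1 := by
  induction l with
  | nil => intro a F F1; simp [Op]
  | cons x xs ih =>
    intro a F F1
    simp only [Op]
    rw [ih a (fun l => F (x :: l)) (fun l => F1 (x :: l))]
    ring

theorem O_lin (a : ℤ) (F F1 : List ℕ → ℤ) :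
    O (fun l => a * F l + F1 l) = fun l => a * O F l + O F1 l := by
  funext l
  exact Op_lin l a F F1

theorem iter_lin (m : ℕ) : ∀ (a : ℤ) (F F1 : List ℕ → ℤ),
    (O^[m]) (fun l => a * F l + F1 l) = fun l => a * (O^[m]) F l + (O^[m]) F1 l := by
  induction m with
  | zero => intro a F F1; rfl
  | succ m ih =>
    intro a F F1
    rw [Function.iterate_succ_apply, Function.iterate_succ_apply, Function.iterate_succ_apply,
      O_lin, ih]

theorem pascal (u : ℕ) (T : ℕ → ℤ) :
    ∑ c ∈ Finset.range (u + 1 + 1), ((u + 1).choose c : ℤ) * T c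
      = ∑ c ∈ Finset.range (u + 1), (u.choose c : ℤ) * T (c + 1)
        + ∑ c ∈ Finset.range (u + 1), (u.choose c : ℤ) * T c := by
  rw [Finset.sum_range_succ' (fun c => ((u + 1).choose c : ℤ) * T c) (u + 1)]
  rw [Finset.sum_range_succ' (fun c => (u.choose c : ℤ) * T c) u]
  have h1 : ∑ c ∈ Finset.range (u + 1), ((u + 1).choose (c + 1) : ℤ) * T (c + 1)
      = ∑ c ∈ Finset.range (u + 1), (u.choose c : ℤ) * T (c + 1)
        + ∑ c ∈ Finset.range (u + 1), (u.choose (c + 1) : ℤ) * T (c + 1) := by
    rw [← Finset.sum_add_distrib]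
    apply Finset.sum_congr rfl
    intro c _
    rw [Nat.choose_succ_succ]
    push_cast
    ring
  have h2 : ∑ c ∈ Finset.range (u + 1), (u.choose (c + 1) : ℤ) * T (c + 1)
      = ∑ c ∈ Finset.range u, (u.choose (c + 1) : ℤ) * T (c + 1) := by
    rw [Finset.sum_range_succ, Nat.choose_succ_self]
    simp
  rw [h1, h2]
  simp only [Nat.choose_zero_right]
  ring

theorem O_cons (F : List ℕ → ℤ) (x : ℕ) :
    (fun l => (O F) (x :: l))
      = fun l => ((x : ℤ) + 1) * (fun l => F ((x + 2) :: l)) l + O (fun l => F (x :: l)) l := by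
  funext l
  rfl

end BLT4

open BLT4 in
theorem p_LT4 : Stmt_LT4 := by
  intro u
  induction u with
  | zero =>
    intro q F xs
    simp [poch]
  | succ u ih =>
    intro q F xs
    rw [Function.iterate_succ_apply, ih q (O F) xs]
    rw [pascal u (fun c => (poch (q + 1) c : ℕ) *
      (O^[u + 1 - c] (fun l => F ((q + 2 * c) :: l))) xs)]
    rw [← Finset.sum_add_distrib]
    apply Finset.sum_congr rfl
    intro c hc
    have hcu : c ≤ u := by
      have := Finset.mem_range.1 hc
      omega
    rw [O_cons, iter_lin]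
    have e1 : u + 1 - (c + 1) = u - c := by omega
    have e2 : u + 1 - c = (u - c) + 1 := by omega
    have e3 : q + 2 * (c + 1) = q + 2 * c + 2 := by ring
    have e4 : poch (q + 1) (c + 1) = (q + 1 + 2 * c) * poch (q + 1) c := rfl
    rw [e1, e2, e3, e4, Function.iterate_succ_apply]
    push_cast
    ring

end Pool.Agent.LuckyTwo
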