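import Pool.Agent.Work.MP_d4a4cd_h15.Interface

set_option autoImplicit false

namespace Pool.Agent.LuckyTwo

namespace LT5

open Finset

theorem P_zero (r : ℕ) : P 0 r = 1 := rfl

theorem P_succ (i r : ℕ) : P (i + 1) r = ∑ s ∈ Finset.range r, (s + 1) * P i (s + 2) := rfl

theorem P_succ_zero (i : ℕ) : P (i + 1) 0 = 0 := by simp [P_succ]

theorem P_succ_succ (i r : ℕ) : P (i + 1) (r + 1) = P (i + 1) r + (r + 1) * P i (r + 2) := by
  rw [P_succ, P_succ, Finset.sum_range_succ]

theorem one (r g u x : ℕ) :
    kap (r + 1) g u (x + 1) = (r + 1) * kap (r + 2) g u x + kap r g (u + 1) (x + 1) := by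
  unfold kap
  rw [Finset.sum_range_succ' _ (x + 1), Finset.sum_range_succ' _ (x + 1)]
  simp only [P_zero, P_succ_succ, Nat.add_sub_add_right, Nat.sub_zero]
  have e1 : u + (r + 1) + (x + 1) - 1 = u + r + x + 1 := by omega
  have e2 : u + (r + 2) + x - 1 = u + r + x + 1 := by omega
  have e3 : u + 1 + r + (x + 1) - 1 = u + r + x + 1 := by omega
  rw [e1, e2, e3, Finset.mul_sum, ← add_assoc, ← Finset.sum_add_distrib]
  congr 1
  apply Finset.sum_congr rfl
  intro i _
  ring

theorem two (r g u : ℕ) : kap (r + 1) g u 0 = kap r g (u + 1) 0 := by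
  simp [kap, P_zero]

theorem kap_zero (g u x : ℕ) : kap 0 g u x = (u + x - 1).choose x * poch g x := by
  unfold kap
  rw [Finset.sum_range_succ' _ x]
  simp only [P_zero, P_succ_zero, Nat.sub_zero, zero_mul, Finset.sum_const_zero, zero_add, one_mul, add_zero]

theorem poch_zero (x : ℕ) : poch 0 (x + 1) = 0 := by
  induction x with
  | zero => simp [poch]
  | succ x ih => rw [poch, ih, mul_zero]

theorem four (u x : ℕ) : kap 0 0 u x = if x = 0 then 1 else 0 := by
  rw [kap_zero]
  cases x with
  | zero => simp [poch]
  | succ x => simp [poch_zero]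

theorem P_one (h2 : Stmt_LT2) (i : ℕ) : P i 1 = poch 1 i := by
  cases i with
  | zero => rfl
  | succ i =>
    have h := h2 1 (i + 1)
    have e0 : ∀ c ∈ range (i + 1 + 1), c ∉ ({1} : Finset ℕ) →
        Nat.choose 1 c * (poch 1 c * P (i + 1 - c) (2 * c)) = 0 := by
      intro c _ hc
      rw [Finset.mem_singleton] at hc
      rcases Nat.lt_or_ge c 1 with h1 | h1
      · have : c = 0 := by omega
        subst this
        simp [P_succ_zero]
      · have : 1 < c := by omega
        rw [Nat.choose_eq_zero_of_lt this, zero_mul]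
    have e1 : ({1} : Finset ℕ) ⊆ range (i + 1 + 1) := by
      intro c hc
      rw [Finset.mem_singleton] at hc
      rw [Finset.mem_range]
      omega
    rw [← Finset.sum_subset e1 e0, Finset.sum_singleton] at h
    have e2 : (1 + (i + 1) - 1).choose (i + 1) = 1 := by
      rw [show 1 + (i + 1) - 1 = i + 1 by omega, Nat.choose_self]
    rw [e2, one_mul, Nat.choose_self, one_mul, Nat.add_sub_cancel] at h
    have e3 : poch 1 1 = 1 := by simp [poch]
    rw [e3, one_mul] at h
    rw [P_succ, Finset.sum_range_one, ← h]
    simp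

theorem five (h2 : Stmt_LT2) (h3 : Stmt_LT3) (g x : ℕ) : kap 1 g 0 x = poch (g + 1) x := by
  rw [← h3 g x]
  unfold kap
  apply Finset.sum_congr rfl
  intro i hi
  have hi' : i ≤ x := Nat.lt_succ_iff.1 (mem_range.1 hi)
  rw [P_one h2, show 0 + 1 + x - 1 = x by omega, Nat.choose_symm hi']
  ring

theorem choose_id (u x w : ℕ) (hw : w ≤ x) :
    (u + x - 1).choose (x - w) * (u + w - 1).choose w = (u + x - 1).choose x * x.choose w := by
  rcases Nat.eq_zero_or_pos u with rfl | hu
  · rcases Nat.eq_zero_or_pos x with rfl | hx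
    · have : w = 0 := by omega
      subst this
      rfl
    · rw [Nat.choose_eq_zero_of_lt (show 0 + x - 1 < x by omega), zero_mul]
      rcases Nat.eq_zero_or_pos w with rfl | hw'
      · rw [Nat.sub_zero, Nat.choose_eq_zero_of_lt (show 0 + x - 1 < x by omega), zero_mul]
      · rw [Nat.choose_eq_zero_of_lt (show 0 + w - 1 < w by omega), mul_zero]
  · have h := Nat.choose_mul (n := u + x - 1) (k := x) (s := x - w) (by omega)
    rw [Nat.choose_symm hw, show u + x - 1 - (x - w) = u + w - 1 by omega,
      show x - (x - w) = w by omega] at h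
    exact h.symm

theorem three (h2 : Stmt_LT2) (h3 : Stmt_LT3) (g u x : ℕ) :
    kap 0 (g + 1) u x = ∑ c ∈ Finset.range (u + 1),
      if c ≤ x then u.choose c * (poch 1 c * kap (2 * c) g (u - c) (x - c)) else 0 := by
  -- the summand as a sum over w
  have s1 : ∀ c ∈ range (u + 1),
      (if c ≤ x then u.choose c * (poch 1 c * kap (2 * c) g (u - c) (x - c)) else 0) =
      ∑ w ∈ range (x + 1), if c ≤ w then
        (u.choose c * (poch 1 c * P (w - c) (2 * c))) * ((u + x - 1).choose (x - w) * poch g (x - w)) else 0 := by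
    intro c hc
    have hc' : c ≤ u := Nat.lt_succ_iff.1 (mem_range.1 hc)
    by_cases hx : c ≤ x
    · rw [if_pos hx]
      obtain ⟨d, rfl⟩ := Nat.exists_eq_add_of_le hx
      rw [show c + d + 1 = c + (d + 1) by ring, Finset.sum_range_add]
      have z : ∑ w ∈ range c, (if c ≤ w then
          (u.choose c * (poch 1 c * P (w - c) (2 * c))) * ((u + (c + d) - 1).choose (c + d - w) *
            poch g (c + d - w)) else 0) = 0 := by
        apply Finset.sum_eq_zero
        intro w hw
        rw [if_neg (by rw [mem_range] at hw; omega)]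
      rw [z, zero_add, Nat.add_sub_cancel_left]
      unfold kap
      rw [Finset.mul_sum, Finset.mul_sum]
      apply Finset.sum_congr rfl
      intro i hi
      have hi' : i ≤ d := Nat.lt_succ_iff.1 (mem_range.1 hi)
      rw [if_pos (by omega), Nat.add_sub_cancel_left, show u - c + 2 * c + d - 1 = u + (c + d) - 1 by omega,
        show c + d - (c + i) = d - i by omega]
      ring
    · rw [if_neg hx]
      symm
      apply Finset.sum_eq_zero
      intro w hw
      rw [if_neg (by rw [mem_range] at hw; omega)]
  rw [Finset.sum_congr rfl s1, Finset.sum_comm]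
  -- for fixed w the sum over c is LT2
  have s2 : ∀ w ∈ range (x + 1), (∑ c ∈ range (u + 1), if c ≤ w then
        (u.choose c * (poch 1 c * P (w - c) (2 * c))) * ((u + x - 1).choose (x - w) * poch g (x - w)) else 0) =
      (u + x - 1).choose x * (x.choose w * (poch 1 w * poch g (x - w))) := by
    intro w hw
    have hw' : w ≤ x := Nat.lt_succ_iff.1 (mem_range.1 hw)
    have t1 : (∑ c ∈ range (u + 1), if c ≤ w then
        (u.choose c * (poch 1 c * P (w - c) (2 * c))) * ((u + x - 1).choose (x - w) * poch g (x - w)) else 0) =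
        (∑ c ∈ range (w + 1), u.choose c * (poch 1 c * P (w - c) (2 * c))) *
          ((u + x - 1).choose (x - w) * poch g (x - w)) := by
      rw [Finset.sum_mul]
      have a1 : (∑ c ∈ range (u + 1), if c ≤ w then
          (u.choose c * (poch 1 c * P (w - c) (2 * c))) * ((u + x - 1).choose (x - w) * poch g (x - w)) else 0) =
          ∑ c ∈ range (u + w + 1), if c ≤ w then
          (u.choose c * (poch 1 c * P (w - c) (2 * c))) * ((u + x - 1).choose (x - w) * poch g (x - w)) else 0 := by
        apply Finset.sum_subset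
        · intro c hc
          rw [mem_range] at hc ⊢
          omega
        · intro c _ hc
          rw [mem_range, not_lt] at hc
          rw [Nat.choose_eq_zero_of_lt (show u < c by omega)]
          simp
      have a2 : (∑ c ∈ range (w + 1),
          (u.choose c * (poch 1 c * P (w - c) (2 * c))) * ((u + x - 1).choose (x - w) * poch g (x - w))) =
          ∑ c ∈ range (u + w + 1), if c ≤ w then
          (u.choose c * (poch 1 c * P (w - c) (2 * c))) * ((u + x - 1).choose (x - w) * poch g (x - w)) else 0 := by
        rw [← Finset.sum_subset (s₁ := range (w + 1)) (s₂ := range (u + w + 1))]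
        · apply Finset.sum_congr rfl
          intro c hc
          rw [if_pos (Nat.lt_succ_iff.1 (mem_range.1 hc))]
        · intro c hc
          rw [mem_range] at hc ⊢
          omega
        · intro c _ hc
          rw [mem_range, not_lt] at hc
          rw [if_neg (by omega)]
      rw [a1, a2]
    rw [t1, h2 u w]
    have h := choose_id u x w hw'
    calc (u + w - 1).choose w * poch 1 w * ((u + x - 1).choose (x - w) * poch g (x - w))
        = ((u + x - 1).choose (x - w) * (u + w - 1).choose w) * (poch 1 w * poch g (x - w)) := by ring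
      _ = _ := by rw [h]; ring
  rw [Finset.sum_congr rfl s2, ← Finset.mul_sum, h3 g x, kap_zero]

end LT5

theorem p_LT5 (h2 : Stmt_LT2) (h3 : Stmt_LT3) : Stmt_LT5 :=
  ⟨LT5.one, LT5.two, LT5.three h2 h3, LT5.four, LT5.five h2 h3⟩

end Pool.Agent.LuckyTwo
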