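import Pool.Agent.Work.MP_d4a4cd_h15.Interface
import Pool.Agent.Work.MP_d4a4cd_co_h99.Eval

set_option autoImplicit false

namespace Pool.Agent.LuckyTwo

open Pool.Agent.LuckyStirling (T step ftf a)

namespace LT8

/-- the sum over the lucky steps -/
def A (m t : ℕ) : ℕ := ∑ g ∈ Finset.range (m + 1),
    T t (List.replicate (g + 1) false ++ true :: (List.replicate (m - g) false ++
      List.replicate m true)) t

theorem T_u (m t : ℕ) (hm : 1 ≤ m) :
    T (t + 1) (List.replicate m false ++ List.replicate m true) t =
      A m t + m * (if t = 0 then 0 else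
        T t (List.replicate (m + 1) false ++ List.replicate (m + 1) true) (t - 1)) := by
  obtain ⟨k, rfl⟩ : ∃ k, m = k + 1 := ⟨m - 1, by omega⟩
  have hu : (List.replicate (k + 1) true : List Bool) = true :: List.replicate k true :=
    List.replicate_succ
  rw [T]
  have hl : (List.replicate (k + 1) false ++ List.replicate (k + 1) true).length + 1 =
      (k + 1 + 1) + (k + 1) := by
    rw [List.length_append, List.length_replicate, List.length_replicate]; ring
  rw [hl, Finset.sum_range_add]
  congr 1
  · unfold A
    apply Finset.sum_congr rfl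
    intro g hg
    have hg' := Finset.mem_range.1 hg
    rw [if_neg (LuckyStirling.take_rep (k + 1) g _ (by omega)),
      LuckyStirling.step_lucky (k + 1) g _ (by omega)]
  · rw [Finset.sum_congr rfl (g := fun _ => (if t = 0 then 0 else
        T t (List.replicate (k + 1 + 1) false ++ List.replicate (k + 1 + 1) true) (t - 1)))]
    · rw [Finset.sum_const, Finset.card_range, smul_eq_mul]
    · intro h hh
      have hh' := Finset.mem_range.1 hh
      have h1 := LuckyStirling.take_unlucky (k + 1) h (List.replicate k true)
      have h2 := LuckyStirling.step_unlucky (k + 1) h (List.replicate k true)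
      have h3 : List.take h (List.replicate k true) ++ true :: true ::
          List.drop h (List.replicate k true) = List.replicate (k + 1 + 1) true := by
        rw [List.take_replicate, List.drop_replicate, ← List.replicate_succ, ← List.replicate_succ,
          List.replicate_append_replicate]
        congr 1
        omega
      rw [hu, if_pos h1, h2, h3]

theorem T_rec (t : ℕ) : ∀ m : ℕ, 1 ≤ m →
    T (t + 1) (List.replicate m false ++ List.replicate m true) t =
      ∑ j ∈ Finset.range (t + 1), m.ascFactorial j * A (m + j) (t - j) := by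
  induction t with
  | zero =>
    intro m hm
    rw [T_u m 0 hm]
    simp
  | succ t ih =>
    intro m hm
    rw [T_u m (t + 1) hm, if_neg (by omega), Nat.add_sub_cancel, ih (m + 1) (by omega),
      Finset.sum_range_succ' _ (t + 1), Nat.ascFactorial_zero, one_mul, Nat.add_zero, Nat.sub_zero,
      add_comm]
    congr 1
    rw [Finset.mul_sum]
    apply Finset.sum_congr rfl
    intro j _
    have h1 : m + 1 + j = m + (j + 1) := by ring
    have h2 : t + 1 - (j + 1) = t - j := by omega
    rw [h1, h2, ← mul_assoc, Nat.succ_ascFactorial, Nat.ascFactorial_succ]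

end LT8

theorem p_LT8 : Stmt_LT8 := by
  intro n hn
  obtain ⟨t, rfl⟩ : ∃ t, n = t + 1 + 1 := ⟨n - 2, by omega⟩
  rw [LuckyStirling.a_eq (t + 1 + 1) 2 (by omega)]
  have h0 : t + 1 + 1 - 2 = t := by omega
  have h1 : T (t + 1 + 1) [] t =
      T (t + 1) (List.replicate 1 false ++ List.replicate 1 true) t := by
    rw [T]
    simp [step, ftf]
  rw [h0, h1, LT8.T_rec t 1 (le_refl _)]
  have h2 : t + 1 + 1 - 1 = t + 1 := by omega
  rw [h2]
  have h3 : Finset.Icc 1 (t + 1) = Finset.Ico 1 (t + 1 + 1) := by
    ext x; simp only [Finset.mem_Icc, Finset.mem_Ico]; omega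
  rw [h3, Finset.sum_Ico_eq_sum_range]
  have h4 : t + 1 + 1 - 1 = t + 1 := by omega
  rw [h4]
  apply Finset.sum_congr rfl
  intro j hj
  have hj' := Finset.mem_range.1 hj
  have h5 : 1 + j - 1 = j := by omega
  have h6 : t + 1 - (1 + j) = t - j := by omega
  rw [h5, h6, Nat.one_ascFactorial]
  rfl

end Pool.Agent.LuckyTwo
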