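import Pool.Agent.Work.MP_d4a4cd_h15.Interface

set_option autoImplicit false

namespace Pool.Agent.LuckyTwo

open Finset

lemma LT9.left (x k : ℕ) : poch x (k + 1) = x * poch (x + 2) k := by
  induction k with
  | zero => simp [poch]
  | succ k ih => rw [poch, ih, poch]; ring

theorem p_LT9 : Stmt_LT9 := by
  intro M x
  induction M with
  | zero =>
    rw [Icc_self, sum_singleton, LT9.left 0 x, poch]
    ring
  | succ M ih =>
    rw [sum_Icc_succ_top (by omega), mul_add, ih, LT9.left M x]
    have h : poch (M + 1 + 1) (x + 1) = (M + 2 + 2 * x) * poch (M + 2) x := by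
      rw [poch]
    rw [h]
    ring

end Pool.Agent.LuckyTwo
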