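import Pool.Agent.Work.MP_d4a4cd_h15.Interface

set_option autoImplicit false

namespace Pool.Agent.LuckyTwo.Alt2

open Finset

lemma P_rec (i r : ℕ) : P (i + 1) (r + 1) = P (i + 1) r + (r + 1) * P i (r + 2) := by
  rw [P, P, sum_range_succ]

lemma P_closed (i : ℕ) : ∀ r : ℕ,
    P i (r + 1) * (r.factorial * (2 ^ i * i.factorial)) = (r + 2 * i).factorial := by
  induction i with
  | zero => intro r; simp [P]
  | succ i ih =>
    intro r
    induction r with
    | zero =>
      rw [P_rec]
      have h1 := ih 1
      have h0 : P (i + 1) 0 = 0 := by rw [P]; simp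
      rw [h0, zero_add]
      have e : 0 + 2 * (i + 1) = (1 + 2 * i) + 1 := by omega
      rw [e, Nat.factorial_succ (1 + 2 * i), ← h1, Nat.factorial_succ i, pow_succ]
      simp only [Nat.factorial_zero, Nat.factorial_one]
      ring
    | succ r ihr =>
      rw [P_rec]
      have h1 := ih (r + 2)
      have e1 : r + 2 + 2 * i = r + 2 * (i + 1) := by omega
      rw [e1] at h1
      have e2 : r + 1 + 2 * (i + 1) = (r + 2 * (i + 1)) + 1 := by omega
      rw [e2, Nat.factorial_succ (r + 2 * (i + 1))]
      have h2 : P (i + 1) (r + 1) * ((r + 1).factorial * (2 ^ (i + 1) * (i + 1).factorial)) =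
          (r + 1) * (r + 2 * (i + 1)).factorial := by
        rw [← ihr, Nat.factorial_succ r]
        ring
      have h3 : (r + 1 + 1) * P i (r + 1 + 2) * ((r + 1).factorial * (2 ^ (i + 1) * (i + 1).factorial)) =
          2 * (i + 1) * (r + 2 * (i + 1)).factorial := by
        rw [← h1, Nat.factorial_succ (r + 1), Nat.factorial_succ i, pow_succ]
        ring
      rw [add_mul, h2, h3]
      ring

lemma poch_one (c : ℕ) : poch 1 c * (2 ^ c * c.factorial) = (2 * c).factorial := by
  induction c with
  | zero => simp [poch]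
  | succ c ih =>
    have e : 2 * (c + 1) = 2 * c + 1 + 1 := by omega
    rw [poch, e, Nat.factorial_succ (2 * c + 1), Nat.factorial_succ (2 * c), ← ih,
      Nat.factorial_succ c, pow_succ]
    ring

lemma key (c i : ℕ) : poch 1 (c + 1) * P i (2 * (c + 1)) = poch 1 (c + 1 + i) * (c + i).choose c := by
  have h1 := P_closed i (2 * c + 1)
  have h2 := poch_one (c + 1)
  have h3 := poch_one (c + 1 + i)
  have e1 : 2 * (c + 1) = 2 * c + 1 + 1 := by omega
  have e2 : 2 * (c + 1 + i) = 2 * c + 1 + 2 * i + 1 := by omega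
  rw [e1, Nat.factorial_succ (2 * c + 1)] at h2
  rw [e2, Nat.factorial_succ (2 * c + 1 + 2 * i), ← h1] at h3
  have h4 : (c + i).choose c * (c.factorial * i.factorial) = (c + i).factorial := by
    have := Nat.add_choose_mul_factorial_mul_factorial c i
    rw [← this, Nat.choose_symm_add]
    ring
  have e3 : (c + 1 + i).factorial = (c + 1 + i) * (c + i).factorial := by
    have : c + 1 + i = c + i + 1 := by omega
    rw [this, Nat.factorial_succ]
  have e4 : (c + 1).factorial = (c + 1) * c.factorial := Nat.factorial_succ c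
  rw [e3, ← h4] at h3
  rw [e4] at h2
  rw [e1]
  have hpos : 0 < 2 ^ (c + 1 + i) * ((c + 1 + i) * (c.factorial * i.factorial)) := by positivity
  apply Nat.eq_of_mul_eq_mul_right hpos
  have h3' : poch 1 (c + 1 + i) * (c + i).choose c *
      (2 ^ (c + 1 + i) * ((c + 1 + i) * (c.factorial * i.factorial))) =
      (2 * c + 1 + 2 * i + 1) * (P i (2 * c + 1 + 1) * ((2 * c + 1).factorial *
        (2 ^ i * i.factorial))) := by
    rw [← h3]
    ring
  rw [h3']
  have h5 : poch 1 (c + 1) * P i (2 * c + 1 + 1) *
      (2 ^ (c + 1 + i) * ((c + 1 + i) * (c.factorial * i.factorial))) * (c + 1) =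
      (2 * c + 1 + 2 * i + 1) * (P i (2 * c + 1 + 1) * ((2 * c + 1).factorial *
        (2 ^ i * i.factorial))) * (c + 1) := by
    have : poch 1 (c + 1) * P i (2 * c + 1 + 1) *
      (2 ^ (c + 1 + i) * ((c + 1 + i) * (c.factorial * i.factorial))) * (c + 1) =
      (poch 1 (c + 1) * (2 ^ (c + 1) * ((c + 1) * c.factorial))) * (P i (2 * c + 1 + 1) *
        (2 ^ i * i.factorial)) * (c + 1 + i) := by
      rw [pow_add]
      ring
    rw [this, h2]
    ring
  exact Nat.eq_of_mul_eq_mul_right (by omega) h5

theorem LT2 : Stmt_LT2 := by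
  intro u w
  cases w with
  | zero => simp [poch, P]
  | succ w =>
    rw [sum_range_succ']
    have h0 : P (w + 1 - 0) (2 * 0) = 0 := by
      rw [Nat.sub_zero, Nat.mul_zero, P]
      simp
    rw [h0]
    simp only [mul_zero, add_zero]
    have h1 : ∀ c ∈ range (w + 1), u.choose (c + 1) * (poch 1 (c + 1) * P (w + 1 - (c + 1)) (2 * (c + 1))) =
        poch 1 (w + 1) * (u.choose (c + 1) * w.choose (w - c)) := by
      intro c hc
      rw [mem_range] at hc
      have e1 : w + 1 - (c + 1) = w - c := by omega
      rw [e1, key c (w - c)]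
      have e2 : c + 1 + (w - c) = w + 1 := by omega
      have e3 : c + (w - c) = w := by omega
      rw [e2, e3, ← Nat.choose_symm (by omega : c ≤ w)]
      ring
    rw [sum_congr rfl h1, ← mul_sum]
    have e4 : u + (w + 1) - 1 = u + w := by omega
    rw [e4, Nat.add_choose_eq u w (w + 1),
      Finset.Nat.sum_antidiagonal_eq_sum_range_succ (fun a b => u.choose a * w.choose b) (w + 1),
      Nat.succ_eq_add_one, sum_range_succ' (fun k => u.choose k * w.choose (w + 1 - k)) (w + 1),
      mul_comm]
    have h5 : w.choose (w + 1 - 0) = 0 := Nat.choose_eq_zero_of_lt (by omega)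
    rw [h5, mul_zero, add_zero]
    congr 1
    apply sum_congr rfl
    intro c _
    rw [Nat.add_sub_add_right]

end Pool.Agent.LuckyTwo.Alt2
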