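import Pool.Agent.Work.MP_d4a4cd_h15.Interface

set_option autoImplicit false

namespace Pool.Agent.LuckyTwo.Alt6

open Finset

lemma Op_lin (l : List ℕ) (c : ℤ) (F F1 : List ℕ → ℤ) :
    Op l (fun t => c * F t + F1 t) = c * Op l F + Op l F1 := by
  induction l generalizing F F1 with
  | nil => simp [Op]
  | cons x xs ih => rw [Op, Op, Op, ih]; ring

lemma Oit_lin (u : ℕ) (c : ℤ) (F F1 : List ℕ → ℤ) (l : List ℕ) :
    (O^[u] (fun t => c * F t + F1 t)) l = c * (O^[u] F) l + (O^[u] F1) l := by
  induction u generalizing F F1 with
  | zero => rfl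
  | succ u ih =>
    rw [Function.iterate_succ_apply, Function.iterate_succ_apply, Function.iterate_succ_apply]
    have h : O (fun t => c * F t + F1 t) = fun t => c * O F t + O F1 t := by
      funext t
      exact Op_lin t c F F1
    rw [h, ih]

lemma Op_congr (l : List ℕ) (F F1 : List ℕ → ℤ) (h : ∀ t, t.length = l.length → F t = F1 t) :
    Op l F = Op l F1 := by
  induction l generalizing F F1 with
  | nil => simp [Op]
  | cons x xs ih =>
    rw [Op, Op, h _ (by simp), ih _ _ (fun t ht => h _ (by simp [ht]))]

lemma Oit_congr (u : ℕ) (l : List ℕ) (F F1 : List ℕ → ℤ)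
    (h : ∀ t, t.length = l.length → F t = F1 t) : (O^[u] F) l = (O^[u] F1) l := by
  induction u generalizing l with
  | zero => exact h l rfl
  | succ u ih =>
    rw [Function.iterate_succ_apply', Function.iterate_succ_apply']
    apply Op_congr
    intro t ht
    exact ih t (fun s hs => h s (hs.trans ht))

lemma Oit_single (u : ℕ) (y : ℕ) (F : List ℕ → ℤ) :
    (O^[u] F) [y] = (poch (y + 1) u : ℕ) * F [y + 2 * u] := by
  induction u generalizing F with
  | zero => simp [poch]
  | succ u ih =>
    rw [Function.iterate_succ_apply, ih, poch]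
    have h : O F [y + 2 * u] = (((y + 2 * u : ℕ) : ℤ) + 1) * F [y + 2 * u + 2] := by
      rw [O, Op, Op, add_zero]
    rw [h]
    have e : y + 2 * (u + 1) = y + 2 * u + 2 := by omega
    rw [e]
    push_cast
    ring

lemma shift_sum (M c : ℕ) (f : ℕ → ℤ) (h : ∀ x, M ≤ x + c → f x = 0) :
    ∑ x ∈ range M, (if c ≤ x then f (x - c) else 0) = ∑ x ∈ range M, f x := by
  rw [← sum_filter]
  have h1 : (range M).filter (fun x => c ≤ x) = Ico c M := by
    ext x
    simp only [mem_filter, mem_range, mem_Ico]
    omega
  rw [h1, sum_Ico_eq_sum_range]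
  have h2 : ∀ x ∈ range (M - c), f (c + x - c) = f x := by
    intro x _
    rw [Nat.add_sub_cancel_left]
  rw [sum_congr rfl h2]
  apply sum_subset
  · intro x hx
    rw [mem_range] at hx ⊢
    omega
  · intro x _ hx
    rw [mem_range] at hx
    exact h x (by omega)

theorem LT6 (h4 : Stmt_LT4) (h5 : Stmt_LT5) : Stmt_LT6 := by
  obtain ⟨k1, k2, k3, k4, -⟩ := h5
  suffices H : ∀ (N g r u y : ℕ),
      (O^[u] (G N r)) (List.replicate g 0 ++ [y]) = ∑ x ∈ range (N + 1),
        if r + 2 * x ≤ N then (kap r g u x : ℤ) * Tm (N - r - 2 * x) (u + r + x) y else 0 by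
    intro N r g u y
    exact H N g r u y
  intro N
  induction N with
  | zero =>
    intro g r u y
    have h0 : (O^[u] (G 0 r)) (List.replicate g 0 ++ [y]) = 0 := by
      have h1 := Oit_lin u 0 (G 0 r) (G 0 r) (List.replicate g 0 ++ [y])
      have h2 : (fun t => 0 * G 0 r t + G 0 r t) = fun t => (-1) * G 0 r t + G 0 r t := by
        funext t
        have : G 0 r t = 0 := rfl
        rw [this]
        ring
      have h3 := Oit_lin u (-1) (G 0 r) (G 0 r) (List.replicate g 0 ++ [y])
      rw [h2] at h1
      rw [h1] at h3
      linarith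
    rw [h0]
    simp [Tm]
  | succ N ihN =>
    have hsucc : ∀ (g r u y : ℕ), (O^[u] (G (N + 1) (r + 1))) (List.replicate g 0 ++ [y]) =
        ∑ x ∈ range (N + 1 + 1), if r + 1 + 2 * x ≤ N + 1 then
          (kap (r + 1) g u x : ℤ) * Tm (N + 1 - (r + 1) - 2 * x) (u + (r + 1) + x) y else 0 := by
      intro g r u y
      have h1 : G (N + 1) (r + 1) = fun t => ((r : ℤ) + 1) * G N (r + 2) t + O (G N r) t := by
        funext t
        rw [G, frontG]
      rw [h1, Oit_lin, ← Function.iterate_succ_apply, ihN, ihN]
      have h2 : ∑ x ∈ range (N + 1), (if r + 2 * x ≤ N then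
          (kap r g (u + 1) x : ℤ) * Tm (N - r - 2 * x) (u + 1 + r + x) y else 0) =
          ∑ x ∈ range (N + 1 + 1), (if r + 2 * x ≤ N then
          (kap r g (u + 1) x : ℤ) * Tm (N - r - 2 * x) (u + 1 + r + x) y else 0) := by
        rw [sum_range_succ _ (N + 1), if_neg (by omega), add_zero]
      rw [Nat.succ_eq_add_one, h2, sum_range_succ' _ (N + 1), sum_range_succ' _ (N + 1), mul_sum,
        ← add_assoc, ← sum_add_distrib]
      congr 1
      · apply sum_congr rfl
        intro x _
        by_cases hc : r + 1 + 2 * (x + 1) ≤ N + 1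
        · rw [if_pos hc, if_pos (by omega), if_pos (by omega), k1]
          have e1 : N - (r + 2) - 2 * x = N + 1 - (r + 1) - 2 * (x + 1) := by omega
          have e2 : N - r - 2 * (x + 1) = N + 1 - (r + 1) - 2 * (x + 1) := by omega
          have e3 : u + (r + 2) + x = u + (r + 1) + (x + 1) := by omega
          have e4 : u + 1 + r + (x + 1) = u + (r + 1) + (x + 1) := by omega
          rw [e1, e2, e3, e4]
          push_cast
          ring
        · rw [if_neg hc, if_neg (by omega), if_neg (by omega)]
          ring
      · by_cases hc : r + 2 * 0 ≤ N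
        · rw [if_pos hc, if_pos (by omega), k2]
          have e1 : N - r - 2 * 0 = N + 1 - (r + 1) - 2 * 0 := by omega
          have e2 : u + 1 + r + 0 = u + (r + 1) + 0 := by omega
          rw [e1, e2]
        · rw [if_neg hc, if_neg (by omega)]
    intro g
    induction g with
    | zero =>
      intro r u y
      cases r with
      | succ r => exact hsucc 0 r u y
      | zero =>
        rw [List.replicate_zero, List.nil_append, Oit_single]
        have h1 : G (N + 1) 0 [y + 2 * u] = ((N : ℤ) + 1) * ((y + 2 * u + 1).ascFactorial N : ℕ) := by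
          rw [G, frontG]
        rw [h1, sum_range_succ']
        have h2 : ∀ x ∈ range (N + 1), (if 0 + 2 * (x + 1) ≤ N + 1 then
            (kap 0 0 u (x + 1) : ℤ) * Tm (N + 1 - 0 - 2 * (x + 1)) (u + 0 + (x + 1)) y else 0) = 0 := by
          intro x _
          rw [k4, if_neg (by omega : ¬ x + 1 = 0)]
          simp
        rw [sum_congr rfl h2, sum_const_zero, zero_add, if_pos (by omega), k4, if_pos rfl, Tm]
        have e1 : N + 1 - 0 - 2 * 0 - 1 = N := by omega
        have e2 : N + 1 - 0 - 2 * 0 = N + 1 := by omega
        have e3 : u + 0 + 0 = u := by omega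
        have e4 : y + 1 + 2 * u = y + 2 * u + 1 := by omega
        rw [e1, e2, e3, e4]
        push_cast
        ring
    | succ g ihg =>
      intro r u y
      cases r with
      | succ r => exact hsucc (g + 1) r u y
      | zero =>
        rw [List.replicate_succ, List.cons_append, h4]
        have h1 : ∀ c ∈ range (u + 1), (u.choose c : ℤ) * ((poch (0 + 1) c : ℕ) *
            (O^[u - c] (fun l => G (N + 1) 0 ((0 + 2 * c) :: l))) (List.replicate g 0 ++ [y])) =
            ∑ x ∈ range (N + 1 + 1), (if c ≤ x then
              (fun x' => (u.choose c : ℤ) * ((poch 1 c : ℕ) * (if 2 * c + 2 * x' ≤ N + 1 then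
              (kap (2 * c) g (u - c) x' : ℤ) * Tm (N + 1 - 2 * c - 2 * x')
                (u - c + 2 * c + x') y else 0))) (x - c) else 0) := by
          intro c _
          rw [shift_sum (N + 1 + 1) c (fun x' => (u.choose c : ℤ) * ((poch 1 c : ℕ) *
              (if 2 * c + 2 * x' ≤ N + 1 then
              (kap (2 * c) g (u - c) x' : ℤ) * Tm (N + 1 - 2 * c - 2 * x')
                (u - c + 2 * c + x') y else 0))) (fun x hx => by
                  beta_reduce
                  rw [if_neg (by omega)]
                  ring)]
          rw [← mul_sum, ← mul_sum, ← ihg (2 * c) (u - c) y, Nat.zero_add, Nat.zero_add]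
          congr 2
          apply Oit_congr
          intro t ht
          cases t with
          | nil =>
            simp at ht
          | cons a t => rw [G, frontG, G]
        rw [sum_congr rfl h1, sum_comm]
        apply sum_congr rfl
        intro x _
        by_cases hc : 0 + 2 * x ≤ N + 1
        · rw [if_pos hc, k3, Nat.cast_sum, sum_mul]
          apply sum_congr rfl
          intro c hcu
          rw [mem_range] at hcu
          by_cases hx : c ≤ x
          · rw [if_pos hx, if_pos hx]
            beta_reduce
            rw [if_pos (by omega)]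
            have e1 : N + 1 - 2 * c - 2 * (x - c) = N + 1 - 0 - 2 * x := by omega
            have e2 : u - c + 2 * c + (x - c) = u + 0 + x := by omega
            rw [e1, e2]
            push_cast
            ring
          · rw [if_neg hx, if_neg hx]
            simp
        · rw [if_neg hc]
          apply sum_eq_zero
          intro c _
          by_cases hx : c ≤ x
          · rw [if_pos hx]
            beta_reduce
            rw [if_neg (by omega)]
            ring
          · rw [if_neg hx]

end Pool.Agent.LuckyTwo.Alt6
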