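import Pool.Agent.Work.MP_d4a4cd_h15.Interface
import Pool.Agent.Work.MP_d4a4cd_co_h99.Eval

set_option autoImplicit false

namespace Pool.Agent.LuckyTwo.Alt7

open Finset
open Pool.Agent.LuckyStirling (T step ftf a)

lemma T_big (t : ℕ) (u : List Bool) (j : ℕ) (h : t < j) : T t u j = 0 := by
  induction t generalizing u j with
  | zero => rw [T, if_neg (by omega)]
  | succ t ih =>
    rw [T]
    apply sum_eq_zero
    intro g _
    split_ifs with h1 h2
    · rfl
    · exact ih _ _ (by omega)
    · exact ih _ _ (by omega)

lemma T_unl (t z : ℕ) (w : List Bool) :
    T (t + 1) (List.replicate z false ++ true :: w) (t + 1) =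
      ∑ i ∈ range (w.length + 1),
        T t (List.replicate (z + 1) false ++ (w.take i ++ true :: true :: w.drop i)) t := by
  rw [T, List.length_append, List.length_replicate, List.length_cons]
  have h1 : z + (w.length + 1) + 1 = (z + 1) + (w.length + 1) := by ring
  rw [h1, sum_range_add, sum_eq_zero, zero_add]
  · apply sum_congr rfl
    intro i _
    rw [if_pos (LuckyStirling.take_unlucky z i w), if_neg (by omega), LuckyStirling.step_unlucky]
    rfl
  · intro g hg
    rw [mem_range] at hg
    rw [if_neg (LuckyStirling.take_rep z g _ (by omega)), T_big _ _ _ (by omega)]

lemma T_nil (t z : ℕ) : T (t + 1) (List.replicate z false) (t + 1) = 0 := by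
  rw [T]
  apply sum_eq_zero
  intro g _
  rw [if_neg (by rw [List.take_replicate]; simp), T_big _ _ _ (by omega)]

lemma enc_succ (r : ℕ) (l : List ℕ) : enc (r + 1) l = true :: enc r l := by
  cases l with
  | nil => rw [enc, enc, List.replicate_succ]
  | cons x xs => rw [enc, enc, List.replicate_succ, List.cons_append]

lemma ins_sum (F : List Bool → ℤ) (r : ℕ) (xs : List ℕ) :
    ∑ i ∈ range ((enc r xs).length + 1),
      F ((enc r xs).take i ++ true :: true :: (enc r xs).drop i) =
      ((r : ℤ) + 1) * F (enc (r + 2) xs) + Op xs (fun l => F (enc r l)) := by
  induction xs generalizing r F with
  | nil =>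
    rw [enc, enc, Op, List.length_replicate, add_zero]
    rw [sum_congr rfl (g := fun _ => F (List.replicate (r + 2) true))]
    · simp
    · intro i hi
      rw [mem_range] at hi
      congr 1
      rw [List.take_replicate, List.drop_replicate]
      rw [show (true :: true :: List.replicate (r - i) true) = List.replicate (r - i + 2) true by
        rw [List.replicate_succ, List.replicate_succ]]
      rw [List.replicate_append_replicate]
      congr 1
      rw [min_eq_left (by omega)]
      omega
  | cons x xs ih =>
    rw [enc, List.length_append, List.length_replicate, List.length_cons]
    have h1 : r + ((enc x xs).length + 1) + 1 = (r + 1) + ((enc x xs).length + 1) := by ring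
    rw [h1, sum_range_add]
    congr 1
    · rw [sum_congr rfl (g := fun _ => F (enc (r + 2) (x :: xs)))]
      · simp
      · intro i hi
        rw [mem_range] at hi
        congr 1
        have h2 : List.replicate r true = List.replicate i true ++ List.replicate (r - i) true := by
          rw [List.replicate_append_replicate]
          congr 1
          omega
        rw [h2, List.append_assoc, List.take_left' (List.length_replicate),
          List.drop_left' (List.length_replicate), enc]
        rw [show (true :: true :: (List.replicate (r - i) true ++ false :: enc x xs)) =
          List.replicate (r - i + 2) true ++ false :: enc x xs by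
            rw [List.replicate_succ, List.replicate_succ]; rfl]
        rw [← List.append_assoc, List.replicate_append_replicate]
        congr 2
        omega
    · rw [Op]
      have h3 := ih (fun v => F (List.replicate r true ++ false :: v)) x
      beta_reduce at h3
      rw [enc]
      simp only [enc]
      rw [← h3]
      apply sum_congr rfl
      intro i _
      congr 1
      have h4 : (List.replicate r true ++ false :: enc x xs).take (r + 1 + i) =
          List.replicate r true ++ false :: (enc x xs).take i := by
        rw [List.take_append, List.length_replicate, List.take_of_length_le (by
          rw [List.length_replicate]; omega)]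
        have : r + 1 + i - r = i + 1 := by omega
        rw [this, List.take_succ_cons]
      have h5 : (List.replicate r true ++ false :: enc x xs).drop (r + 1 + i) =
          (enc x xs).drop i := by
        rw [List.drop_append, List.length_replicate, List.drop_eq_nil_of_le (by
          rw [List.length_replicate]; omega)]
        have : r + 1 + i - r = i + 1 := by omega
        rw [this, List.drop_succ_cons, List.nil_append]
      rw [h4, h5, List.append_assoc, List.cons_append]

theorem LT7 : Stmt_LT7 := by
  intro t
  induction t with
  | zero =>
    intro z r l
    rw [T, Z, if_pos rfl]
    rfl
  | succ t ih =>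
    have hs : ∀ (z r : ℕ) (l : List ℕ),
        (T (t + 1) (List.replicate z false ++ enc (r + 1) l) (t + 1) : ℤ) = Z (t + 1) (r + 1) l := by
      intro z r l
      rw [enc_succ, T_unl, Nat.cast_sum]
      have h := ins_sum (fun v => (T t (List.replicate (z + 1) false ++ v) t : ℤ)) r l
      beta_reduce at h
      rw [h, ih]
      have h2 : (fun l => (T t (List.replicate (z + 1) false ++ enc r l) t : ℤ)) = Z t r := by
        funext l
        exact ih _ _ _
      rw [h2]
      cases l <;> rfl
    intro z r l
    induction l generalizing z r with
    | nil =>
      cases r with
      | succ r => exact hs z r []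
      | zero =>
        have h1 : enc 0 [] = [] := rfl
        rw [h1, List.append_nil, T_nil]
        rfl
    | cons x xs ihl =>
      cases r with
      | succ r => exact hs z r (x :: xs)
      | zero =>
        have h1 : List.replicate z false ++ enc 0 (x :: xs) =
            List.replicate (z + 1) false ++ enc x xs := by
          rw [List.replicate_succ', List.append_assoc]
          rfl
        rw [h1, ihl]
        rfl

end Pool.Agent.LuckyTwo.Alt7
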