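import Pool.Agent.Work.MP_d4a4cd_h15.Interface

set_option autoImplicit false

/-! # LT6: closed form of the loss (helper50) -/

namespace Pool.Agent.LuckyTwo.Alt6

open Finset

lemma O_lin (a b : ℤ) (F F' : List ℕ → ℤ) :
    O (fun l => a * F l + b * F' l) = fun l => a * O F l + b * O F' l := by
  funext l
  show Op l _ = a * Op l F + b * Op l F'
  induction l generalizing F F' with
  | nil => simp [Op]
  | cons x xs ih =>
    simp only [Op]
    rw [ih (fun l => F (x :: l)) (fun l => F' (x :: l))]
    ring

lemma Oit_lin (u : ℕ) (a b : ℤ) (F F' : List ℕ → ℤ) :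
    O^[u] (fun l => a * F l + b * F' l) = fun l => a * O^[u] F l + b * O^[u] F' l := by
  induction u generalizing F F' with
  | zero => rfl
  | succ u ih =>
    rw [Function.iterate_succ_apply, O_lin, ih, Function.iterate_succ_apply,
      Function.iterate_succ_apply]

lemma Op_congr (F F' : List ℕ → ℤ) (l : List ℕ)
    (h : ∀ l' : List ℕ, l'.length = l.length → F l' = F' l') : Op l F = Op l F' := by
  induction l generalizing F F' with
  | nil => rfl
  | cons x xs ih =>
    simp only [Op]
    rw [h ((x + 2) :: xs) (by simp), ih (fun l => F (x :: l)) (fun l => F' (x :: l))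
      (fun l' hl' => h _ (by simp [hl']))]

lemma Oit_congr (k : ℕ) (F F' : List ℕ → ℤ) (l : List ℕ)
    (h : ∀ l' : List ℕ, l'.length = l.length → F l' = F' l') : O^[k] F l = O^[k] F' l := by
  induction k generalizing F F' with
  | zero => exact h l rfl
  | succ k ih =>
    rw [Function.iterate_succ_apply, Function.iterate_succ_apply]
    apply ih
    intro l' hl'
    exact Op_congr F F' l' (fun l'' h'' => h l'' (h''.trans hl'))

lemma Oit_zero (u : ℕ) : O^[u] (fun _ => (0 : ℤ)) = fun _ => 0 := by
  have h := Oit_lin u 0 0 (fun _ => 0) (fun _ => 0)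
  simpa using h

lemma Oit_single (u : ℕ) (F : List ℕ → ℤ) (y : ℕ) :
    O^[u] F [y] = (poch (y + 1) u : ℕ) * F [y + 2 * u] := by
  induction u generalizing F with
  | zero => simp [poch]
  | succ u ih =>
    rw [Function.iterate_succ_apply, ih]
    show (poch (y + 1) u : ℤ) * Op [y + 2 * u] F = _
    simp only [Op, poch]
    rw [show y + 2 * u + 2 = y + 2 * (u + 1) by ring]
    push_cast
    ring

/-- the right side -/
def R (N r g u y : ℕ) : ℤ := ∑ x ∈ Finset.range (N + 1),
    if r + 2 * x ≤ N then (kap r g u x : ℤ) * Tm (N - r - 2 * x) (u + r + x) y else 0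

lemma R_succ (h5 : Stmt_LT5) (N r g u y : ℕ) :
    R (N + 1) (r + 1) g u y = ((r : ℤ) + 1) * R N (r + 2) g u y + R N r g (u + 1) y := by
  obtain ⟨a1, a2, -, -, -⟩ := h5
  have e1 : R N r g (u + 1) y = ∑ x ∈ Finset.range (N + 1 + 1),
      if r + 2 * x ≤ N then (kap r g (u + 1) x : ℤ) * Tm (N - r - 2 * x) (u + 1 + r + x) y else 0 := by
    rw [Finset.sum_range_succ, if_neg (by omega), add_zero]
    rfl
  rw [e1, Finset.sum_range_succ']
  unfold R
  rw [Finset.sum_range_succ', Finset.mul_sum]
  refine (congrArg₂ (· + ·) (?_ : _ = _ + _) ?_).trans (add_assoc _ _ _)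
  · rw [← Finset.sum_add_distrib]
    apply Finset.sum_congr rfl
    intro x _
    by_cases h : r + 2 + 2 * x ≤ N
    · rw [if_pos (by omega), if_pos h, if_pos (by omega)]
      have e2 : N + 1 - (r + 1) - 2 * (x + 1) = N - (r + 2) - 2 * x := by omega
      have e3 : N - r - 2 * (x + 1) = N - (r + 2) - 2 * x := by omega
      have e4 : u + (r + 1) + (x + 1) = u + (r + 2) + x := by omega
      have e5 : u + 1 + r + (x + 1) = u + (r + 2) + x := by omega
      rw [e2, e3, e4, e5, a1]
      push_cast
      ring
    · rw [if_neg (by omega), if_neg h, if_neg (by omega)]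
      ring
  · by_cases h : r ≤ N
    · rw [if_pos (by omega), if_pos (by omega)]
      have e2 : N + 1 - (r + 1) - 2 * 0 = N - r - 2 * 0 := by omega
      have e4 : u + (r + 1) + 0 = u + 1 + r + 0 := by omega
      rw [e2, e4, a2]
    · rw [if_neg (by omega), if_neg (by omega)]

lemma shift (N c : ℕ) (h : ℕ → ℤ) (hz : ∀ x, N < x → h x = 0) :
    ∑ x ∈ range (N + 1), (if c ≤ x then h x else 0) = ∑ x ∈ range (N + 1), h (c + x) := by
  have h1 := Finset.sum_range_add (fun x => if c ≤ x then h x else 0) c (N + 1)
  have h2 := Finset.sum_range_add (fun x => if c ≤ x then h x else 0) (N + 1) c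
  have h3 : ∑ x ∈ range c, (if c ≤ x then h x else 0) = 0 := by
    apply Finset.sum_eq_zero
    intro x hx
    rw [mem_range] at hx
    rw [if_neg (by omega)]
  have h4 : ∑ x ∈ range c, (if c ≤ N + 1 + x then h (N + 1 + x) else 0) = 0 := by
    apply Finset.sum_eq_zero
    intro x _
    rw [hz (N + 1 + x) (by omega)]
    split_ifs <;> rfl
  have h5 : ∑ x ∈ range (N + 1), (if c ≤ c + x then h (c + x) else 0) =
      ∑ x ∈ range (N + 1), h (c + x) := by
    apply Finset.sum_congr rfl
    intro x _
    rw [if_pos (by omega)]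
  rw [add_comm c (N + 1)] at h1
  rw [h2] at h1
  rw [h3, h4, h5] at h1
  linarith

lemma R_front (h5 : Stmt_LT5) (N g u y : ℕ) :
    R N 0 (g + 1) u y = ∑ c ∈ Finset.range (u + 1),
      (u.choose c : ℤ) * ((poch 1 c : ℕ) * R N (2 * c) g (u - c) y) := by
  obtain ⟨-, -, a3, -, -⟩ := h5
  have key : ∀ c ∈ Finset.range (u + 1), R N (2 * c) g (u - c) y =
      ∑ x ∈ range (N + 1), (if c ≤ x then
        (if 2 * x ≤ N then (kap (2 * c) g (u - c) (x - c) : ℤ) * Tm (N - 2 * x) (u + x) y else 0)
        else 0) := by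
    intro c hc
    rw [mem_range] at hc
    rw [shift N c (fun x =>
      (if 2 * x ≤ N then (kap (2 * c) g (u - c) (x - c) : ℤ) * Tm (N - 2 * x) (u + x) y else 0))
      (fun x hx => if_neg (by omega))]
    unfold R
    apply Finset.sum_congr rfl
    intro x _
    have e1 : 2 * (c + x) = 2 * c + 2 * x := by ring
    have e2 : N - 2 * c - 2 * x = N - (2 * c + 2 * x) := by omega
    have e3 : u - c + 2 * c + x = u + (c + x) := by omega
    have e4 : c + x - c = x := by omega
    simp only [e1, e2, e3, e4]
  rw [Finset.sum_congr rfl (fun c hc => by rw [key c hc])]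
  unfold R
  simp only [Finset.mul_sum]
  rw [Finset.sum_comm]
  apply Finset.sum_congr rfl
  intro x _
  by_cases h : 2 * x ≤ N
  · rw [if_pos (by omega)]
    have e1 : N - 0 - 2 * x = N - 2 * x := by omega
    have e2 : u + 0 + x = u + x := by omega
    rw [e1, e2, a3]
    push_cast
    rw [Finset.sum_mul]
    apply Finset.sum_congr rfl
    intro c _
    by_cases hc : c ≤ x
    · rw [if_pos hc, if_pos hc, if_pos h]
      ring
    · rw [if_neg hc, if_neg hc]
      ring
  · rw [if_neg (by omega)]
    symm
    apply Finset.sum_eq_zero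
    intro c _
    rw [if_neg h]
    split_ifs <;> ring

lemma R_base (h5 : Stmt_LT5) (N u y : ℕ) : R N 0 0 u y = Tm N u y := by
  obtain ⟨-, -, -, a4, -⟩ := h5
  unfold R
  rw [Finset.sum_eq_single_of_mem 0 (by simp)]
  · rw [if_pos (by omega), a4, if_pos rfl]
    simp
  · intro x _ hx
    rw [a4, if_neg hx]
    split_ifs <;> simp

lemma G_succ (N r : ℕ) : G (N + 1) (r + 1) = fun l => ((r : ℤ) + 1) * G N (r + 2) l + 1 * O (G N r) l := by
  funext l
  rw [one_mul]
  cases l with
  | nil => rfl
  | cons x l => cases l <;> rfl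

lemma G_front (N x y : ℕ) (l : List ℕ) : G (N + 1) 0 (x :: y :: l) = G (N + 1) x (y :: l) := rfl

theorem LT6 (h4 : Stmt_LT4) (h5 : Stmt_LT5) : Stmt_LT6 := by
  intro N
  show ∀ r g u y : ℕ, (O^[u] (G N r)) (List.replicate g 0 ++ [y]) = R N r g u y
  induction N with
  | zero =>
    intro r g u y
    have h1 : G 0 r = fun _ => 0 := rfl
    rw [h1, Oit_zero]
    unfold R
    symm
    apply Finset.sum_eq_zero
    intro x _
    by_cases h : r + 2 * x ≤ 0
    · rw [if_pos h]
      have : 0 - r - 2 * x = 0 := by omega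
      rw [this]
      unfold Tm
      simp
    · rw [if_neg h]
  | succ N ih =>
    have hpos : ∀ r g u y : ℕ, (O^[u] (G (N + 1) (r + 1))) (List.replicate g 0 ++ [y]) =
        R (N + 1) (r + 1) g u y := by
      intro r g u y
      rw [G_succ, Oit_lin, R_succ h5]
      show ((r : ℤ) + 1) * (O^[u] (G N (r + 2))) _ + 1 * (O^[u] (O (G N r))) _ = _
      rw [ih, ← Function.iterate_succ_apply, ih, one_mul]
    intro r
    cases r with
    | succ r => exact hpos r
    | zero =>
      intro g
      induction g with
      | zero =>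
        intro u y
        rw [R_base h5]
        show (O^[u] (G (N + 1) 0)) [y] = _
        rw [Oit_single]
        have e1 : G (N + 1) 0 [y + 2 * u] =
            ((N : ℤ) + 1) * ((y + 2 * u + 1).ascFactorial N : ℕ) := rfl
        rw [e1, show y + 2 * u + 1 = y + 1 + 2 * u by omega]
        unfold Tm
        rw [Nat.add_sub_cancel]
        push_cast
        ring
      | succ g ihg =>
        intro u y
        have e0 : List.replicate (g + 1) 0 ++ [y] = 0 :: (List.replicate g 0 ++ [y]) := rfl
        rw [e0, h4, R_front h5]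
        apply Finset.sum_congr rfl
        intro c _
        rw [zero_add]
        congr 2
        rw [zero_add]
        have e1 : (O^[u - c] (fun l => G (N + 1) 0 ((2 * c) :: l))) (List.replicate g 0 ++ [y]) =
            (O^[u - c] (G (N + 1) (2 * c))) (List.replicate g 0 ++ [y]) := by
          apply Oit_congr
          intro l' hl'
          cases l' with
          | nil => simp at hl'
          | cons z l' => exact G_front N (2 * c) z l'
        rw [e1]
        rcases Nat.eq_zero_or_pos c with hc | hc
        · subst hc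
          exact ihg u y
        · obtain ⟨k, hk⟩ : ∃ k, 2 * c = k + 1 := ⟨2 * c - 1, by omega⟩
          rw [hk]
          exact hpos k g (u - c) y

end Pool.Agent.LuckyTwo.Alt6

namespace Pool.Agent.LuckyTwo

/-- LT6 -/
theorem p_LT6 (h4 : Stmt_LT4) (h5 : Stmt_LT5) : Stmt_LT6 := Alt6.LT6 h4 h5

end Pool.Agent.LuckyTwo
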