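import Pool.Agent.Work.MP_d4a4cd_h15.Interface

/-!
# Stirling permutations with exactly two lucky cars: assembly
-/

set_option autoImplicit false

namespace Pool.Agent.LuckyTwo

open Finset
open Pool.Agent.LuckyStirling (T a)

/-- `dp x k = x (x + 2) ... (x + 2 k - 2)` -/
def dp (x k : ℕ) : ℕ := ∏ i ∈ range k, (x + 2 * i)

lemma poch_eq (x k : ℕ) : poch x k = dp x k := by
  induction k with
  | zero => rfl
  | succ k ih => rw [poch, ih, dp, dp, prod_range_succ, mul_comm]

lemma wsum_rep (g m : ℕ) : wsum (List.replicate g 0 ++ [m]) = g + m + 1 := by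
  induction g with
  | zero => simp [wsum]
  | succ g ih => rw [List.replicate_succ, List.cons_append, wsum, ih]; omega

lemma C_rep (g m : ℕ) (F : List ℕ → ℤ) :
    C (List.replicate g 0 ++ [m]) F =
      ∑ i ∈ range (g + 1), F (List.replicate i 0 ++ [m + (g - i)]) := by
  induction g generalizing F with
  | zero => simp [C, wsum]
  | succ g ih =>
    rw [List.replicate_succ, List.cons_append, C, ih, wsum_rep,
      sum_range_succ' (fun i => F (List.replicate i 0 ++ [m + (g + 1 - i)])) (g + 1)]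
    refine (add_comm _ _).trans ?_
    have h1 : ∀ i ∈ range (g + 1), F (0 :: (List.replicate i 0 ++ [m + (g - i)])) =
        F (List.replicate (i + 1) 0 ++ [m + (g + 1 - (i + 1))]) := by
      intro i hi
      rw [List.replicate_succ, List.cons_append, Nat.add_sub_add_right]
    rw [sum_congr rfl h1]
    have h2 : 0 + (g + m + 1) = m + (g + 1 - 0) := by omega
    rw [h2]
    rfl

lemma enc_cons (r x : ℕ) (xs : List ℕ) :
    enc r (x :: xs) = List.replicate r true ++ false :: enc x xs := by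
  rw [enc]

lemma enc_zero_rep (c m : ℕ) : enc 0 (List.replicate c 0 ++ [m]) =
    List.replicate (c + 1) false ++ List.replicate m true := by
  induction c with
  | zero => simp [enc]
  | succ c ih =>
    rw [List.replicate_succ, List.cons_append, enc_cons, ih]
    simp [List.replicate_succ]

lemma enc_one_rep (c m : ℕ) : enc 1 (List.replicate c 0 ++ [m]) =
    true :: (List.replicate (c + 1) false ++ List.replicate m true) := by
  cases c with
  | zero => simp [enc]
  | succ c =>
    rw [List.replicate_succ, List.cons_append, enc_cons, enc_zero_rep]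
    simp [List.replicate_succ]

/-- the loss -/
def loss (N i y : ℕ) : ℤ := ∑ x ∈ range (N / 2), (poch (i + 1) x : ℤ) *
  ((poch (y + 1) (x + 1) : ℤ) * (((N - 1 - 2 * x : ℕ) : ℤ) *
    ((y + 2 * x + 3).ascFactorial (N - 2 - 2 * x) : ℕ)))

lemma G_val (h5 : Stmt_LT5) (h6 : Stmt_LT6) (N i y : ℕ) :
    G N 1 (List.replicate i 0 ++ [y]) = loss N i y := by
  have h := h6 N 1 i 0 y
  rw [Function.iterate_zero, id_eq] at h
  rw [h, loss]
  symm
  apply sum_subset_zero_on_sdiff
  · intro x hx
    rw [mem_range] at hx ⊢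
    omega
  · intro x hx
    rw [mem_sdiff, mem_range, mem_range] at hx
    by_cases hc : 1 + 2 * x ≤ N
    · rw [if_pos hc]
      have : N - 1 - 2 * x = 0 := by omega
      rw [this, Tm]
      simp
    · rw [if_neg hc]
  · intro x hx
    rw [mem_range] at hx
    rw [if_pos (by omega), h5.2.2.2.2, Tm]
    have e1 : 0 + 1 + x = x + 1 := by omega
    have e2 : N - 1 - 2 * x - 1 = N - 2 - 2 * x := by omega
    have e3 : y + 1 + 2 * (x + 1) = y + 2 * x + 3 := by omega
    rw [e1, e2, e3]

lemma Z_one (h1 : Stmt_LT1) (h5 : Stmt_LT5) (h6 : Stmt_LT6) (N c m : ℕ) :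
    Z N 1 (List.replicate c 0 ++ [m]) = ((m + (c + 1) + 1).ascFactorial N : ℕ) -
      ∑ i ∈ range (c + 1), loss N i (m + (c - i)) := by
  rw [h1, wsum_rep, C_rep]
  have e : 1 + (c + m + 1) = m + (c + 1) + 1 := by omega
  rw [e]
  congr 1
  apply sum_congr rfl
  intro i hi
  rw [G_val h5 h6]

lemma Z_nil (h1 : Stmt_LT1) (N m : ℕ) : Z N (m + 1) [] = ((m + 1).ascFactorial N : ℕ) := by
  rw [h1]
  simp [wsum, C]

lemma T_val (h1 : Stmt_LT1) (h5 : Stmt_LT5) (h6 : Stmt_LT6) (h7 : Stmt_LT7) (N m b z : ℕ) :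
    (T N (List.replicate z false ++ true :: (List.replicate b false ++
      List.replicate m true)) N : ℤ) = ((m + b + 1).ascFactorial N : ℕ) -
      ∑ i ∈ range b, loss N i (m + (b - 1 - i)) := by
  cases b with
  | zero =>
    have e : true :: (List.replicate 0 false ++ List.replicate m true) = enc (m + 1) [] := by
      simp [enc, List.replicate_succ]
    rw [e, h7, Z_nil h1]
    simp
  | succ c =>
    rw [← enc_one_rep, h7, Z_one h1 h5 h6]
    simp

lemma reindex (f : ℕ → ℕ → ℤ) (m : ℕ) :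
    ∑ b ∈ range (m + 1), ∑ i ∈ range b, f i (b - 1 - i) =
      ∑ k ∈ range m, ∑ i ∈ range (m - k), f i k := by
  induction m with
  | zero => simp
  | succ m ih =>
    rw [sum_range_succ, ih]
    have h1 : ∀ k ∈ range (m + 1), ∑ i ∈ range (m + 1 - k), f i k =
        ∑ i ∈ range (m - k), f i k + f (m - k) k := by
      intro k hk
      rw [mem_range] at hk
      have : m + 1 - k = m - k + 1 := by omega
      rw [this, sum_range_succ]
    rw [sum_congr rfl h1, sum_add_distrib, sum_range_succ (fun k => ∑ i ∈ range (m - k), f i k)]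
    rw [Nat.sub_self, range_zero, sum_empty, add_zero]
    congr 1
    have h2 := sum_range_reflect (fun j => f (m - j) j) (m + 1)
    rw [← h2]
    apply sum_congr rfl
    intro j hj
    rw [mem_range] at hj
    have e1 : m + 1 - 1 - j = m - j := by omega
    have e2 : m - (m - j) = j := by omega
    simp only [e1, e2]

lemma sum_T (h1 : Stmt_LT1) (h5 : Stmt_LT5) (h6 : Stmt_LT6) (h7 : Stmt_LT7) (N m : ℕ) :
    ((∑ g ∈ range (m + 1), T N (List.replicate (g + 1) false ++ true ::
      (List.replicate (m - g) false ++ List.replicate m true)) N : ℕ) : ℤ) =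
      ∑ b ∈ range (m + 1), (((m + b + 1).ascFactorial N : ℕ) : ℤ) -
        ∑ k ∈ range m, ∑ i ∈ range (m - k), loss N i (m + k) := by
  rw [Nat.cast_sum]
  have h8 : ∀ g ∈ range (m + 1), (T N (List.replicate (g + 1) false ++ true ::
      (List.replicate (m - g) false ++ List.replicate m true)) N : ℤ) =
      (fun b => ((((m + b + 1).ascFactorial N : ℕ) : ℤ) -
      ∑ i ∈ range b, loss N i (m + (b - 1 - i)))) (m + 1 - 1 - g) := by
    intro g hg
    rw [T_val h1 h5 h6 h7]
    simp
  rw [sum_congr rfl h8]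
  refine (sum_range_reflect (fun b => (((m + b + 1).ascFactorial N : ℕ) : ℤ) -
    ∑ i ∈ range b, loss N i (m + (b - 1 - i))) (m + 1)).trans ?_
  rw [sum_sub_distrib, reindex (fun i k => loss N i (m + k))]

lemma sum_loss (h9 : Stmt_LT9) (N m k : ℕ) (hk : k < m) :
    ((∑ i ∈ range (m - k), loss N i (m + k) : ℤ) : ℚ) = ∑ x ∈ range (N / 2),
      ((N - 1 - 2 * x : ℕ) : ℚ) * dp (m + k + 1) (x + 1) *
        (((m + k + N).factorial : ℚ) / (m + k + 2 * x + 2).factorial) *
        (((dp (m - k) (x + 1) : ℚ) + dp (m - k - 1) (x + 1) + dp 1 x) / (2 * x + 2)) := by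
  unfold loss
  rw [sum_comm, Int.cast_sum]
  apply sum_congr rfl
  intro x hx
  rw [mem_range] at hx
  rw [← sum_mul]
  have h10 : (((∑ i ∈ range (m - k), (poch (i + 1) x : ℤ)) : ℤ) : ℚ) =
      ((dp (m - k) (x + 1) : ℚ) + dp (m - k - 1) (x + 1) + dp 1 x) / (2 * x + 2) := by
    obtain ⟨M, hM⟩ : ∃ M, m - k = M + 1 := ⟨m - k - 1, by omega⟩
    have h11 := h9 M x
    have h12 : ∑ i ∈ Icc 1 (M + 1), poch i x = ∑ i ∈ range (M + 1), poch (i + 1) x := by
      rw [range_eq_Ico, sum_Ico_add' (fun i => poch i x) 0 (M + 1) 1]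
      rfl
    rw [h12] at h11
    rw [hM, eq_div_iff (by positivity), Nat.add_sub_cancel, ← poch_eq, ← poch_eq, ← poch_eq]
    have h13 : (((2 * x + 2) * ∑ i ∈ range (M + 1), poch (i + 1) x : ℕ) : ℚ) =
      ((poch (M + 1) (x + 1) + poch M (x + 1) + poch 1 x : ℕ) : ℚ) := by rw [h11]
    push_cast at h13 ⊢
    rw [← h13]
    ring
  rw [Int.cast_mul, h10]
  have h14 : ((m + k + 2 * x + 3).ascFactorial (N - 2 - 2 * x) : ℚ) =
      ((m + k + N).factorial : ℚ) / (m + k + 2 * x + 2).factorial := by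
    rw [eq_div_iff (by positivity)]
    have := Nat.factorial_mul_ascFactorial (m + k + 2 * x + 2) (N - 2 - 2 * x)
    have e : m + k + 2 * x + 2 + (N - 2 - 2 * x) = m + k + N := by omega
    rw [e] at this
    rw [← this]
    push_cast
    ring
  push_cast
  rw [h14, poch_eq]
  ring

theorem two_lucky (h1 : Stmt_LT1) (h5 : Stmt_LT5) (h6 : Stmt_LT6) (h7 : Stmt_LT7)
    (h8 : Stmt_LT8) (h9 : Stmt_LT9) (n : ℕ) (hn : 2 ≤ n) :
    (a n 2 : ℚ) = ∑ m ∈ Icc 1 (n - 1), ((m - 1).factorial : ℚ) *
      (∑ b ∈ range (m + 1), ((n - 1 + b).factorial : ℚ) / (m + b).factorial -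
        ∑ k ∈ range m, ∑ x ∈ range ((n - 1 - m) / 2), ((n - 2 - m - 2 * x : ℕ) : ℚ) *
          dp (m + k + 1) (x + 1) *
          (((n - 1 + k).factorial : ℚ) / (m + k + 2 * x + 2).factorial) *
          (((dp (m - k) (x + 1) : ℚ) + dp (m - k - 1) (x + 1) + dp 1 x) / (2 * x + 2))) := by
  rw [h8 n hn, Nat.cast_sum]
  apply sum_congr rfl
  intro m hm
  rw [mem_Icc] at hm
  rw [Nat.cast_mul]
  congr 1
  have h := sum_T h1 h5 h6 h7 (n - 1 - m) m
  have h' := congrArg (fun z : ℤ => (z : ℚ)) h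
  simp only [Int.cast_natCast] at h'
  rw [h', Int.cast_sub]
  congr 1
  · rw [Int.cast_sum]
    apply sum_congr rfl
    intro b hb
    rw [Int.cast_natCast, eq_div_iff (by positivity)]
    have := Nat.factorial_mul_ascFactorial (m + b) (n - 1 - m)
    have e : m + b + (n - 1 - m) = n - 1 + b := by omega
    rw [e] at this
    rw [← this]
    push_cast
    ring
  · rw [Int.cast_sum]
    apply sum_congr rfl
    intro k hk
    rw [mem_range] at hk
    rw [sum_loss h9 _ _ _ hk]
    apply sum_congr rfl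
    intro x hx
    rw [mem_range] at hx
    have e1 : n - 1 - m - 1 - 2 * x = n - 2 - m - 2 * x := by omega
    have e2 : m + k + (n - 1 - m) = n - 1 + k := by omega
    rw [e1, e2]

end Pool.Agent.LuckyTwo
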