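import Mathlib
import Pool.Agent.Work.MP_d4a4cd_co_h99.Chain

/-!
# Stirling permutations with exactly two lucky cars: interface

A word is coded by the number `r` of ones in front and the list of the numbers of ones in the gaps
behind its zeros.
-/

set_option autoImplicit false

namespace Pool.Agent.LuckyTwo

open Pool.Agent.LuckyStirling (T step ftf a)

/-- double step product `x (x + 2) ... (x + 2 k - 2)` -/
def poch (x : ℕ) : ℕ → ℕ
  | 0 => 1
  | k + 1 => (x + 2 * k) * poch x k

/-- number of letters of the part behind the front -/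
def wsum : List ℕ → ℕ
  | [] => 0
  | x :: xs => x + 1 + wsum xs

/-- sum over the insertions of two ones behind the front block -/
def Op : List ℕ → (List ℕ → ℤ) → ℤ
  | [], _ => 0
  | x :: xs, F => ((x : ℤ) + 1) * F ((x + 2) :: xs) + Op xs (fun l => F (x :: l))

/-- the same as an operator on functions -/
def O (F : List ℕ → ℤ) : List ℕ → ℤ := fun l => Op l F

/-- absorption of zeros by an empty front -/
def front (f : ℕ → List ℕ → ℤ) : List ℕ → ℕ → ℤ
  | l, r + 1 => f r l
  | [], 0 => 0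
  | x :: xs, 0 => front f xs x

/-- number of histories of `N` steps without lucky steps -/
def Z : ℕ → ℕ → List ℕ → ℤ
  | 0, _, _ => 1
  | N + 1, r, l => front (fun r l => ((r : ℤ) + 1) * Z N (r + 2) l + O (Z N r) l) l r

/-- the same with a value `t` at the end of the list -/
def frontG (t : ℕ → ℤ) (f : ℕ → List ℕ → ℤ) : List ℕ → ℕ → ℤ
  | l, r + 1 => f r l
  | [], 0 => 0
  | [x], 0 => t x
  | x :: y :: l, 0 => frontG t f (y :: l) x

/-- loss caused by the absorption of the last zero -/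
def G : ℕ → ℕ → List ℕ → ℤ
  | 0, _, _ => 0
  | N + 1, r, l => frontG (fun x => ((N : ℤ) + 1) * ((x + 1).ascFactorial N : ℕ))
      (fun r l => ((r : ℤ) + 1) * G N (r + 2) l + O (G N r) l) l r

/-- sum over the zeros; everything behind the zero is one gap -/
def C : List ℕ → (List ℕ → ℤ) → ℤ
  | [], _ => 0
  | x :: xs, F => F [x + wsum xs] + C xs (fun l => F (x :: l))

/-- weighted paths from height `r` to `0` with `i` up steps -/
def P : ℕ → ℕ → ℕ
  | 0, _ => 1
  | i + 1, r => ∑ s ∈ Finset.range r, (s + 1) * P i (s + 2)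

/-- terminal value -/
def Tm (M u y : ℕ) : ℤ := (poch (y + 1) u : ℕ) * ((M : ℤ) * ((y + 1 + 2 * u).ascFactorial (M - 1) : ℕ))

/-- weight of the passage -/
def kap (r g u x : ℕ) : ℕ :=
  ∑ i ∈ Finset.range (x + 1), P i r * ((u + r + x - 1).choose (x - i) * poch g (x - i))

/-- the word -/
def enc : ℕ → List ℕ → List Bool
  | r, [] => List.replicate r true
  | r, x :: xs => List.replicate r true ++ false :: enc x xs

/-! ### Blocks -/

/-- LT1: telescoping -/
def Stmt_LT1 : Prop := ∀ (N r : ℕ) (l : List ℕ),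
  Z N r l = ((r + wsum l).ascFactorial N : ℕ) - C l (G N r)

/-- LT2: the number of passages -/
def Stmt_LT2 : Prop := ∀ u w : ℕ,
  ∑ c ∈ Finset.range (w + 1), u.choose c * (poch 1 c * P (w - c) (2 * c))
    = (u + w - 1).choose w * poch 1 w

/-- LT3: Vandermonde for double step products -/
def Stmt_LT3 : Prop := ∀ g x : ℕ,
  ∑ i ∈ Finset.range (x + 1), x.choose i * (poch 1 i * poch g (x - i)) = poch (g + 1) x

/-- LT4: iterated insertions, first gap separated -/
def Stmt_LT4 : Prop := ∀ (u q : ℕ) (F : List ℕ → ℤ) (xs : List ℕ),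
  (O^[u] F) (q :: xs) = ∑ c ∈ Finset.range (u + 1),
    (u.choose c : ℤ) * ((poch (q + 1) c : ℕ) * (O^[u - c] (fun l => F ((q + 2 * c) :: l))) xs)

/-- LT5: recursion of `kap` in `r` and in `g` -/
def Stmt_LT5 : Prop :=
  (∀ r g u x : ℕ, kap (r + 1) g u (x + 1) = (r + 1) * kap (r + 2) g u x + kap r g (u + 1) (x + 1)) ∧
  (∀ r g u : ℕ, kap (r + 1) g u 0 = kap r g (u + 1) 0) ∧
  (∀ g u x : ℕ, kap 0 (g + 1) u x = ∑ c ∈ Finset.range (u + 1),
    if c ≤ x then u.choose c * (poch 1 c * kap (2 * c) g (u - c) (x - c)) else 0) ∧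
  (∀ u x : ℕ, kap 0 0 u x = if x = 0 then 1 else 0) ∧
  (∀ g x : ℕ, kap 1 g 0 x = poch (g + 1) x)

/-- LT6: closed form of the loss -/
def Stmt_LT6 : Prop := ∀ (N r g u y : ℕ),
  (O^[u] (G N r)) (List.replicate g 0 ++ [y]) = ∑ x ∈ Finset.range (N + 1),
    if r + 2 * x ≤ N then (kap r g u x : ℤ) * Tm (N - r - 2 * x) (u + r + x) y else 0

/-- LT7: unlucky histories of words -/
def Stmt_LT7 : Prop := ∀ (t z r : ℕ) (l : List ℕ),
  (T t (List.replicate z false ++ enc r l) t : ℤ) = Z t r l

/-- LT8: reduction of `a n 2` -/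
def Stmt_LT8 : Prop := ∀ n : ℕ, 2 ≤ n →
  a n 2 = ∑ m ∈ Finset.Icc 1 (n - 1), (m - 1).factorial * ∑ g ∈ Finset.range (m + 1),
    T (n - 1 - m) (List.replicate (g + 1) false ++ true :: (List.replicate (m - g) false ++
      List.replicate m true)) (n - 1 - m)

/-- LT9: sums of double step products -/
def Stmt_LT9 : Prop := ∀ M x : ℕ,
  (2 * x + 2) * ∑ i ∈ Finset.Icc 1 (M + 1), poch i x = poch (M + 1) (x + 1) + poch M (x + 1) + poch 1 x

end Pool.Agent.LuckyTwo
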