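import Pool.Agent.Work.MP_d4a4cd_h15.Interface

set_option autoImplicit false

namespace Pool.Agent.LuckyTwo.Alt1

open Finset

lemma Op_add (l : List ℕ) (F F1 : List ℕ → ℤ) :
    Op l (fun t => F t + F1 t) = Op l F + Op l F1 := by
  induction l generalizing F F1 with
  | nil => simp [Op]
  | cons x xs ih => rw [Op, Op, Op, ih]; ring

lemma Op_smul (l : List ℕ) (c : ℤ) (F : List ℕ → ℤ) :
    Op l (fun t => c * F t) = c * Op l F := by
  induction l generalizing F with
  | nil => simp [Op]
  | cons x xs ih => rw [Op, Op, ih]; ring

lemma C_add (l : List ℕ) (F F1 : List ℕ → ℤ) :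
    C l (fun t => F t + F1 t) = C l F + C l F1 := by
  induction l generalizing F F1 with
  | nil => simp [C]
  | cons x xs ih => rw [C, C, C, ih]; ring

lemma C_smul (l : List ℕ) (c : ℤ) (F : List ℕ → ℤ) :
    C l (fun t => c * F t) = c * C l F := by
  induction l generalizing F with
  | nil => simp [C]
  | cons x xs ih => rw [C, C, ih]; ring

lemma C_congr (l : List ℕ) (F F1 : List ℕ → ℤ) (h : ∀ t, t ≠ [] → F t = F1 t) :
    C l F = C l F1 := by
  induction l generalizing F F1 with
  | nil => simp [C]
  | cons x xs ih =>
    rw [C, C, h _ (by simp), ih _ _ (fun t _ => h _ (by simp))]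

lemma Op_wsum (l : List ℕ) (f : ℕ → ℤ) :
    Op l (fun t => f (wsum t)) = wsum l * f (wsum l + 2) := by
  induction l generalizing f with
  | nil => simp [Op, wsum]
  | cons x xs ih =>
    have h1 : (fun t => f (wsum (x :: t))) = fun t => (fun y => f (x + 1 + y)) (wsum t) := by
      funext t
      rw [wsum]
    rw [Op, h1, ih (fun y => f (x + 1 + y)), wsum, wsum]
    have e1 : x + 2 + 1 + wsum xs = x + 1 + wsum xs + 2 := by omega
    have e2 : x + 1 + (wsum xs + 2) = x + 1 + wsum xs + 2 := by omega
    simp only [e1, e2]
    push_cast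
    ring

lemma Op_C (l : List ℕ) (F : List ℕ → ℤ) : Op l (fun t => C t F) = C l (O F) := by
  induction l generalizing F with
  | nil => simp [Op, C]
  | cons x xs ih =>
    rw [Op, C]
    have h1 : (fun t => C (x :: t) F) =
        fun t => (fun y => F [x + y]) (wsum t) + C t (fun l => F (x :: l)) := by
      funext t
      rw [C]
    rw [h1, Op_add, Op_wsum xs (fun y => F [x + y]), ih, C]
    have h2 : (fun l => O F (x :: l)) =
        fun l => ((x : ℤ) + 1) * F ((x + 2) :: l) + O (fun l => F (x :: l)) l := by
      funext l
      rw [O, Op]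
      rfl
    rw [h2, C_add, C_smul, O, Op, Op]
    have e1 : x + 2 + wsum xs = x + wsum xs + 2 := by omega
    have e2 : x + (wsum xs + 2) = x + wsum xs + 2 := by omega
    simp only [e1, e2]
    push_cast
    ring

lemma asc_left (n k : ℕ) : n.ascFactorial (k + 1) = n * (n + 1).ascFactorial k := by
  rw [Nat.ascFactorial_succ, ← Nat.succ_ascFactorial]

lemma asc_sub (y N : ℕ) : (((y + 1).ascFactorial (N + 1) : ℕ) : ℤ) -
    ((N : ℤ) + 1) * ((y + 1).ascFactorial N : ℕ) = (y.ascFactorial (N + 1) : ℕ) := by
  have h1 : (y + 1).ascFactorial (N + 1) = (y + 1 + N) * (y + 1).ascFactorial N :=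
    Nat.ascFactorial_succ
  have h2 := asc_left y N
  rw [h1, h2]
  push_cast
  ring

theorem LT1 : Stmt_LT1 := by
  intro N
  induction N with
  | zero =>
    intro r l
    have h0 : ∀ l : List ℕ, C l (G 0 r) = 0 := by
      intro l
      have h1 : C l (G 0 r) = C l (fun t => 0 * G 0 r t) := by
        apply C_congr
        intro t _
        rw [zero_mul]
        rfl
      rw [h1, C_smul, zero_mul]
    rw [h0]
    simp [Z]
  | succ N ih =>
    intro r l
    induction l generalizing r with
    | nil =>
      cases r with
      | zero => simp [Z, front, C, wsum, Nat.zero_ascFactorial]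
      | succ r =>
        rw [Z, front, ih, O, Op, C, C, wsum]
        rw [asc_left]
        push_cast
        ring
    | cons x xs ihl =>
      cases r with
      | zero =>
        have hz : Z (N + 1) 0 (x :: xs) = Z (N + 1) x xs := by
          rw [Z, Z, front]
        rw [hz, ihl, C]
        have hg : C xs (fun l => G (N + 1) 0 (x :: l)) = C xs (G (N + 1) x) := by
          apply C_congr
          intro t ht
          cases t with
          | nil => exact absurd rfl ht
          | cons y t => rw [G, frontG, G]
        rw [hg]
        have hg1 : G (N + 1) 0 [x + wsum xs] =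
            ((N : ℤ) + 1) * ((x + wsum xs + 1).ascFactorial N : ℕ) := by
          rw [G, frontG]
        rw [hg1, wsum]
        have h3 := asc_sub (x + wsum xs) N
        have e : 0 + (x + 1 + wsum xs) = x + wsum xs + 1 := by omega
        rw [e]
        linarith
      | succ r =>
        have hz : Z (N + 1) (r + 1) (x :: xs) =
            ((r : ℤ) + 1) * Z N (r + 2) (x :: xs) + Op (x :: xs) (Z N r) := by
          rw [Z, front]
          rfl
        have hg : C (x :: xs) (G (N + 1) (r + 1)) =
            ((r : ℤ) + 1) * C (x :: xs) (G N (r + 2)) + C (x :: xs) (O (G N r)) := by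
          rw [← C_smul, ← C_add]
          apply C_congr
          intro t _
          rw [G, frontG]
        have ho : Op (x :: xs) (Z N r) = Op (x :: xs) (fun t =>
            (fun y => (((r + y).ascFactorial N : ℕ) : ℤ)) (wsum t) + (-1) * C t (G N r)) := by
          congr 1
          funext t
          rw [ih]
          ring
        rw [hz, hg, ho, Op_add, Op_smul,
          Op_wsum (x :: xs) (fun y => (((r + y).ascFactorial N : ℕ) : ℤ)), Op_C, ih]
        have e1 : r + 1 + wsum (x :: xs) + 1 = r + 2 + wsum (x :: xs) := by omega
        have e2 : r + (wsum (x :: xs) + 2) = r + 2 + wsum (x :: xs) := by omega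
        rw [asc_left, e1]
        simp only [e2]
        push_cast
        ring

end Pool.Agent.LuckyTwo.Alt1
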